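import Mathlib
import Pool.Agent.FB.Iface

/-!
# HOPF, part 1: Fourier coefficients and products of two-sided series (MP_15d50e_gt)
-/

open Complex Set MeasureTheory
open scoped ComplexConjugate Real

namespace FB
namespace Hopf

theorem integral_char (k : ℤ) :
    ∫ θ in (0 : ℝ)..(2 * π), cexp ((k : ℂ) * θ * I) = if k = 0 then ((2 * π : ℝ) : ℂ) else 0 := by
  split_ifs with h
  · subst h
    simp
  · have hc : ((k : ℂ) * I) ≠ 0 := mul_ne_zero (by exact_mod_cast h) I_ne_zero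
    have h1 : ∀ θ : ℝ, cexp ((k : ℂ) * θ * I) = cexp (((k : ℂ) * I) * θ) := by
      intro θ; ring_nf
    simp_rw [h1]
    rw [integral_exp_mul_complex hc]
    have h2 : ((k : ℂ) * I) * ((2 * π : ℝ) : ℂ) = (k : ℂ) * (2 * π * I) := by
      push_cast; ring
    rw [h2, Complex.exp_int_mul_two_pi_mul_I]
    simp

/-- A Fourier coefficient is bounded by the supremum of the function. -/
theorem coeff_bound (c : ℤ → ℂ) (hc : Summable fun n => ‖c n‖) (B : ℝ)
    (h : ∀ θ : ℝ, ‖∑' n : ℤ, c n * cexp ((n : ℂ) * θ * I)‖ ≤ B) (m : ℤ) : ‖c m‖ ≤ B := by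
  have hpi : (0 : ℝ) ≤ 2 * π := by positivity
  set F : ℤ → ℝ → ℂ := fun n θ => (c n * cexp ((n : ℂ) * θ * I)) * cexp (-((m : ℂ) * θ * I))
    with hF
  have hnorm : ∀ n θ, ‖F n θ‖ = ‖c n‖ := by
    intro n θ
    simp only [hF, norm_mul]
    have e1 : ‖cexp ((n : ℂ) * θ * I)‖ = 1 := by
      have : ((n : ℂ) * θ * I) = ((n * θ : ℝ) : ℂ) * I := by push_cast; ring
      rw [this, Complex.norm_exp_ofReal_mul_I]
    have e2 : ‖cexp (-((m : ℂ) * θ * I))‖ = 1 := by
      have : (-((m : ℂ) * θ * I)) = ((-(m * θ) : ℝ) : ℂ) * I := by push_cast; ring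
      rw [this, Complex.norm_exp_ofReal_mul_I]
    rw [e1, e2, mul_one, mul_one]
  have hcont : ∀ n, Continuous (F n) := by
    intro n
    simp only [hF]
    fun_prop
  have hint : ∀ n, Integrable (F n) (volume.restrict (Ioc (0 : ℝ) (2 * π))) := by
    intro n
    exact ((hcont n).intervalIntegrable 0 (2 * π)).1
  have hsum : Summable fun n => ∫ θ, ‖F n θ‖ ∂(volume.restrict (Ioc (0 : ℝ) (2 * π))) := by
    simp_rw [hnorm]
    simp only [integral_const, smul_eq_mul]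
    exact hc.mul_left _
  have hs := hasSum_integral_of_summable_integral_norm hint hsum
  have hval : ∀ n, ∫ θ, F n θ ∂(volume.restrict (Ioc (0 : ℝ) (2 * π)))
      = if n = m then ((2 * π : ℝ) : ℂ) * c m else 0 := by
    intro n
    rw [← intervalIntegral.integral_of_le hpi]
    have h1 : ∀ θ : ℝ, F n θ = c n * cexp (((n - m : ℤ) : ℂ) * θ * I) := by
      intro θ
      simp only [hF]
      rw [mul_assoc, ← Complex.exp_add]
      congr 2
      push_cast
      ring
    simp_rw [h1]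
    rw [intervalIntegral.integral_const_mul, integral_char]
    by_cases hnm : n = m
    · subst hnm; simp [mul_comm]
    · have : n - m ≠ 0 := sub_ne_zero.mpr hnm
      simp [this, hnm]
  simp_rw [hval] at hs
  have h3 : ∫ θ, ∑' n, F n θ ∂(volume.restrict (Ioc (0 : ℝ) (2 * π))) = ((2 * π : ℝ) : ℂ) * c m := by
    have := hs.tsum_eq
    rw [← this, tsum_ite_eq]
  have h4 : ‖∫ θ in (0 : ℝ)..(2 * π), ∑' n, F n θ‖ ≤ B * |2 * π - 0| := by
    apply intervalIntegral.norm_integral_le_of_norm_le_const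
    intro θ _
    have : ∑' n, F n θ = (∑' n : ℤ, c n * cexp ((n : ℂ) * θ * I)) * cexp (-((m : ℂ) * θ * I)) := by
      simp only [hF]
      rw [tsum_mul_right]
    rw [this, norm_mul]
    have e2 : ‖cexp (-((m : ℂ) * θ * I))‖ = 1 := by
      have : (-((m : ℂ) * θ * I)) = ((-(m * θ) : ℝ) : ℂ) * I := by push_cast; ring
      rw [this, Complex.norm_exp_ofReal_mul_I]
    rw [e2, mul_one]
    exact h θ
  rw [intervalIntegral.integral_of_le hpi, h3, norm_mul] at h4
  have h5 : ‖((2 * π : ℝ) : ℂ)‖ = 2 * π := by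
    rw [Complex.norm_real, Real.norm_eq_abs, abs_of_nonneg hpi]
  rw [h5, sub_zero, abs_of_nonneg hpi] at h4
  have hpi' : (0 : ℝ) < 2 * π := by positivity
  nlinarith

/-- Uniqueness of Fourier coefficients. -/
theorem coeff_zero (c : ℤ → ℂ) (hc : Summable fun n => ‖c n‖)
    (h : ∀ θ : ℝ, ∑' n : ℤ, c n * cexp ((n : ℂ) * θ * I) = 0) (m : ℤ) : c m = 0 := by
  have := coeff_bound c hc 0 (fun θ => by rw [h θ]; simp) m
  exact norm_le_zero_iff.mp this

/-- The reindexing `(n, k) ↦ (k, n - k)`. -/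
def shear : ℤ × ℤ ≃ ℤ × ℤ where
  toFun := fun p => (p.2, p.1 - p.2)
  invFun := fun p => (p.1 + p.2, p.1)
  left_inv := fun p => by ext <;> simp
  right_inv := fun p => by ext <;> simp

@[simp] theorem shear_apply (p : ℤ × ℤ) : shear p = (p.2, p.1 - p.2) := rfl

/-- Convolution: product of two absolutely convergent two-sided series. -/
theorem conv_spec (x y : ℤ → ℂ) (w : ℂ) (hw : w ≠ 0)
    (hx : Summable fun n : ℤ => ‖x n * w ^ n‖) (hy : Summable fun n : ℤ => ‖y n * w ^ n‖) :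
    (Summable fun n : ℤ => ‖conv x y n * w ^ n‖) ∧
    ∑' n : ℤ, conv x y n * w ^ n = (∑' n : ℤ, x n * w ^ n) * (∑' n : ℤ, y n * w ^ n) := by
  set Gf : ℤ × ℤ → ℂ := fun p => (x p.1 * w ^ p.1) * (y p.2 * w ^ p.2) with hG
  set Hf : ℤ × ℤ → ℂ := fun p => (x p.2 * y (p.1 - p.2)) * w ^ p.1 with hH
  have hxy : Summable fun p : ℤ × ℤ => ‖Gf p‖ :=
    Summable.mul_norm (f := fun n : ℤ => x n * w ^ n) (g := fun n : ℤ => y n * w ^ n) hx hy
  have he : ∀ p : ℤ × ℤ, Gf (shear p) = Hf p := by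
    rintro ⟨n, k⟩
    simp only [hG, hH, shear_apply]
    have : w ^ n = w ^ k * w ^ (n - k) := by
      rw [← zpow_add₀ hw]; congr 1; ring
    rw [this]; ring
  have h0 : Summable fun p : ℤ × ℤ => ‖Gf (shear p)‖ :=
    (Equiv.summable_iff (f := fun p : ℤ × ℤ => ‖Gf p‖) shear).mpr hxy
  have h1 : Summable fun p : ℤ × ℤ => ‖Hf p‖ := by
    simpa only [he] using h0
  have h1' : Summable Hf := h1.of_norm
  have hfib : ∀ n : ℤ, ∑' k : ℤ, Hf (n, k) = conv x y n * w ^ n := by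
    intro n
    simp only [hH]
    rw [tsum_mul_right]; rfl
  constructor
  · have h2 := (summable_prod_of_nonneg (fun p => norm_nonneg (Hf p))).mp h1
    refine Summable.of_nonneg_of_le (fun n => norm_nonneg _) (fun n => ?_) h2.2
    rw [← hfib n]
    exact norm_tsum_le_tsum_norm (h2.1 n)
  · have h3 : ∑' p : ℤ × ℤ, Hf p = ∑' n : ℤ, ∑' k : ℤ, Hf (n, k) := h1'.tsum_prod
    rw [tsum_mul_tsum_of_summable_norm (f := fun n : ℤ => x n * w ^ n)
      (g := fun n : ℤ => y n * w ^ n) hx hy]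
    have h4 : ∑' p : ℤ × ℤ, Gf p = ∑' p : ℤ × ℤ, Gf (shear p) := (shear.tsum_eq Gf).symm
    have h5 : ∑' p : ℤ × ℤ, Gf (shear p) = ∑' p : ℤ × ℤ, Hf p := tsum_congr he
    have h6 : ∑' p : ℤ × ℤ, (x p.1 * w ^ p.1) * (y p.2 * w ^ p.2) = ∑' p : ℤ × ℤ, Gf p := rfl
    rw [h6, h4, h5, h3]
    exact tsum_congr fun n => (hfib n).symm

end Hopf
end FB
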