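import Mathlib
import Pool.Agent.FB.Iface

/-!
# HOPF, part 2: elementary facts on the lattice `ℤ + iℤ` and the sets `US s` (MP_15d50e_gt)
-/

open Complex Set Metric
open scoped ComplexConjugate Real

namespace FB
namespace Hopf

@[simp] theorem lp_zero : lp 0 = 0 := by simp [lp]

theorem lp_add (p q : ℤ × ℤ) : lp (p + q) = lp p + lp q := by
  simp only [lp, Prod.fst_add, Prod.snd_add]; push_cast; ring

theorem lp_sub (p q : ℤ × ℤ) : lp (p - q) = lp p - lp q := by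
  simp only [lp, Prod.fst_sub, Prod.snd_sub]; push_cast; ring

theorem lp_neg (p : ℤ × ℤ) : lp (-p) = -lp p := by
  simp only [lp, Prod.fst_neg, Prod.snd_neg]; push_cast; ring

@[simp] theorem lp_re (p : ℤ × ℤ) : (lp p).re = p.1 := by simp [lp]
@[simp] theorem lp_im (p : ℤ × ℤ) : (lp p).im = p.2 := by simp [lp]

/-- Rotation of the lattice: `I * lp p = lp (rotp p)`. -/
def rotp : ℤ × ℤ ≃ ℤ × ℤ where
  toFun := fun p => (-p.2, p.1)
  invFun := fun p => (p.2, -p.1)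
  left_inv := fun p => by ext <;> simp
  right_inv := fun p => by ext <;> simp

theorem I_mul_lp (p : ℤ × ℤ) : I * lp p = lp (rotp p) := by
  apply Complex.ext <;> simp [rotp]

theorem conj_lp (p : ℤ × ℤ) : conj (lp p) = lp (p.1, -p.2) := by
  apply Complex.ext <;> simp

theorem norm_lp_sq (p : ℤ × ℤ) : ‖lp p‖ ^ 2 = (p.1 : ℝ) ^ 2 + (p.2 : ℝ) ^ 2 := by
  rw [← Complex.normSq_eq_norm_sq, Complex.normSq_apply]; simp; ring

theorem one_le_norm_lp {p : ℤ × ℤ} (hp : p ≠ 0) : 1 ≤ ‖lp p‖ := by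
  have h1 : (1 : ℝ) ≤ ‖lp p‖ ^ 2 := by
    rw [norm_lp_sq]
    have : (1 : ℤ) ≤ p.1 ^ 2 + p.2 ^ 2 := by
      rcases eq_or_ne p.1 0 with h | h
      · have h2 : p.2 ≠ 0 := fun h' => hp (Prod.ext h h')
        have := sq_pos_of_ne_zero h2
        nlinarith [sq_nonneg p.1]
      · have := sq_pos_of_ne_zero h
        nlinarith [sq_nonneg p.2]
    exact_mod_cast this
  nlinarith [norm_nonneg (lp p)]

theorem exists_near (z : ℂ) : ∃ p : ℤ × ℤ, ‖z - lp p‖ ≤ 3 / 4 := by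
  refine ⟨(round z.re, round z.im), ?_⟩
  have h1 := abs_sub_round z.re
  have h2 := abs_sub_round z.im
  have h3 : ‖z - lp (round z.re, round z.im)‖ ^ 2 ≤ (3 / 4) ^ 2 := by
    rw [← Complex.normSq_eq_norm_sq, Complex.normSq_apply]
    simp only [sub_re, sub_im, lp_re, lp_im]
    have e1 := sq_abs (z.re - round z.re)
    have e2 := sq_abs (z.im - round z.im)
    nlinarith [abs_nonneg (z.re - round z.re), abs_nonneg (z.im - round z.im)]
  exact le_of_sq_le_sq h3 (by norm_num) |> fun h => h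
where
  le_of_sq_le_sq {a b : ℝ} (h : a ^ 2 ≤ b ^ 2) (hb : 0 ≤ b) : a ≤ b := by
    nlinarith [abs_nonneg a, le_abs_self a, sq_abs a, abs_le_of_sq_le_sq h hb]

/-- Lattice points are at distance at least one, so the close one is unique. -/
theorem near_unique {z : ℂ} {p q : ℤ × ℤ} {r : ℝ} (hr : r ≤ 1 / 2)
    (hp : ‖z - lp p‖ < r) (hq : ‖z - lp q‖ < r) : p = q := by
  by_contra h
  have h1 : 1 ≤ ‖lp (p - q)‖ := one_le_norm_lp (sub_ne_zero.mpr h)
  have h2 : lp (p - q) = (z - lp q) - (z - lp p) := by rw [lp_sub]; ring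
  rw [h2] at h1
  have := norm_sub_le (z - lp q) (z - lp p)
  linarith

theorem finite_near (z : ℂ) (R : ℝ) : {p : ℤ × ℤ | ‖z - lp p‖ ≤ R}.Finite := by
  refine Set.Finite.subset (Set.finite_Icc
    ((⌊z.re - R⌋, ⌊z.im - R⌋) : ℤ × ℤ) (⌈z.re + R⌉, ⌈z.im + R⌉)) ?_
  rintro p hp
  have hp' : ‖z - lp p‖ ≤ R := hp
  have h1 : |z.re - p.1| ≤ R := by
    have := Complex.abs_re_le_norm (z - lp p)
    simp only [sub_re, lp_re] at this
    linarith
  have h2 : |z.im - p.2| ≤ R := by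
    have := Complex.abs_im_le_norm (z - lp p)
    simp only [sub_im, lp_im] at this
    linarith
  rw [abs_le] at h1 h2
  have a1 : (⌊z.re - R⌋ : ℝ) ≤ z.re - R := Int.floor_le _
  have a2 : (⌊z.im - R⌋ : ℝ) ≤ z.im - R := Int.floor_le _
  have a3 : z.re + R ≤ (⌈z.re + R⌉ : ℝ) := Int.le_ceil _
  have a4 : z.im + R ≤ (⌈z.im + R⌉ : ℝ) := Int.le_ceil _
  constructor
  · constructor
    · show ⌊z.re - R⌋ ≤ p.1
      have : (⌊z.re - R⌋ : ℝ) ≤ p.1 := by linarith
      exact_mod_cast this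
    · show ⌊z.im - R⌋ ≤ p.2
      have : (⌊z.im - R⌋ : ℝ) ≤ p.2 := by linarith
      exact_mod_cast this
  · constructor
    · show p.1 ≤ ⌈z.re + R⌉
      have : (p.1 : ℝ) ≤ (⌈z.re + R⌉ : ℝ) := by linarith
      exact_mod_cast this
    · show p.2 ≤ ⌈z.im + R⌉
      have : (p.2 : ℝ) ≤ (⌈z.im + R⌉ : ℝ) := by linarith
      exact_mod_cast this

theorem isOpen_US (s : ℝ) : IsOpen (US s) := by
  rw [Metric.isOpen_iff]
  intro x hx
  have hfin := finite_near x (s + 1)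
  -- positive minimum on the finite set
  have hex : ∃ δ : ℝ, 0 < δ ∧ δ ≤ 1 ∧ ∀ p ∈ {p : ℤ × ℤ | ‖x - lp p‖ ≤ s + 1}, δ ≤ ‖x - lp p‖ - s := by
    have key : ∀ T : Finset (ℤ × ℤ), ∃ δ : ℝ, 0 < δ ∧ δ ≤ 1 ∧ ∀ p ∈ T, δ ≤ ‖x - lp p‖ - s := by
      intro T
      induction T using Finset.induction_on with
      | empty => exact ⟨1, one_pos, le_rfl, by simp⟩
      | insert a T _ ih =>
        obtain ⟨δ, h0, h1, h2⟩ := ih
        have ha : 0 < ‖x - lp a‖ - s := by have := hx a; linarith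
        refine ⟨min δ (‖x - lp a‖ - s), lt_min h0 ha, (min_le_left _ _).trans h1, ?_⟩
        intro p hp
        rcases Finset.mem_insert.mp hp with h | h
        · subst h; exact min_le_right _ _
        · exact (min_le_left _ _).trans (h2 p h)
    obtain ⟨δ, h0, h1, h2⟩ := key hfin.toFinset
    exact ⟨δ, h0, h1, fun p hp => h2 p (hfin.mem_toFinset.mpr hp)⟩
  obtain ⟨δ, h0, h1, h2⟩ := hex
  refine ⟨δ, h0, ?_⟩
  intro y hy p
  have hy' : ‖y - x‖ < δ := by simpa [dist_eq_norm] using hy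
  have htri : ‖x - lp p‖ ≤ ‖y - lp p‖ + ‖y - x‖ := by
    have : x - lp p = (y - lp p) - (y - x) := by ring
    rw [this]; exact norm_sub_le _ _
  by_cases hp : ‖x - lp p‖ ≤ s + 1
  · have := h2 p hp
    linarith
  · push Not at hp
    linarith

theorem US_add {s : ℝ} {z : ℂ} (hz : z ∈ US s) (q : ℤ × ℤ) : z + lp q ∈ US s := by
  intro p
  have := hz (p - q)
  rw [lp_sub] at this
  have e : z + lp q - lp p = z - (lp p - lp q) := by ring
  rwa [e]

theorem US_sub {s : ℝ} {z : ℂ} (hz : z ∈ US s) (q : ℤ × ℤ) : z - lp q ∈ US s := by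
  have := US_add hz (-q)
  rwa [lp_neg, ← sub_eq_add_neg] at this

theorem US_neg {s : ℝ} {z : ℂ} (hz : z ∈ US s) : -z ∈ US s := by
  intro p
  have := hz (-p)
  rw [lp_neg] at this
  have e : -z - lp p = -(z - -lp p) := by ring
  rwa [e, norm_neg]

theorem US_I_mul {s : ℝ} {z : ℂ} (hz : z ∈ US s) : I * z ∈ US s := by
  intro p
  have := hz (rotp.symm p)
  have e : I * z - lp p = I * (z - lp (rotp.symm p)) := by
    rw [mul_sub, I_mul_lp, Equiv.apply_symm_apply]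
  rw [e, norm_mul, norm_I, one_mul]
  exact this

theorem US_conj {s : ℝ} {z : ℂ} (hz : z ∈ US s) : conj z ∈ US s := by
  intro p
  have := hz (p.1, -p.2)
  have e : conj z - lp p = conj (z - lp (p.1, -p.2)) := by
    rw [map_sub, conj_lp]; simp
  rw [e, Complex.norm_conj]
  exact this

theorem US_mono {s s' : ℝ} (h : s ≤ s') : US s' ⊆ US s := fun _ hz p => lt_of_le_of_lt h (hz p)

/-- Points close to `0` (but not too close) lie in `US s`. -/
theorem mem_US_of_norm {s : ℝ} (_hs : 0 ≤ s) {z : ℂ} (h1 : s < ‖z‖) (h2 : ‖z‖ < 1 - s) : z ∈ US s := by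
  intro p
  by_cases hp : p = 0
  · subst hp; simpa using h1
  · have := one_le_norm_lp hp
    have h3 : ‖lp p‖ ≤ ‖z‖ + ‖z - lp p‖ := by
      have : lp p = z - (z - lp p) := by ring
      calc ‖lp p‖ = ‖z - (z - lp p)‖ := by rw [← this]
        _ ≤ _ := norm_sub_le _ _
    linarith

end Hopf
end FB
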