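import Mathlib
import Pool.Agent.FB.Hopf.Fou

/-!
# HOPF, part 4: Laurent series of the Hopf differential around the hole (MP_15d50e_gt)
-/

open Complex Set
open scoped ComplexConjugate Real

namespace FB
namespace Hopf

theorem _root_.HasSum.congr_aux {ι : Type*} {f g : ι → ℂ} {s : ℂ} (h : HasSum f s)
    (hfg : ∀ i, g i = f i) : HasSum g s := by
  have : g = f := funext hfg
  rw [this]; exact h

/-- Laurent coefficients of `z ω(z)` in powers of `z/t`. -/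
noncomputable def yC (β : ℝ) (a b : ℕ → ℂ) (n : ℤ) : ℂ :=
  if n = 0 then (β : ℂ) / 2 else
    if 0 < n then (n : ℂ) * a n.natAbs else (n : ℂ) * ((-1) ^ n.natAbs * conj (b n.natAbs))

theorem yC_zero (β : ℝ) (a b : ℕ → ℂ) : yC β a b 0 = (β : ℂ) / 2 := by simp [yC]

theorem yC_nat (β : ℝ) (a b : ℕ → ℂ) (n : ℕ) :
    yC β a b (n : ℤ) = (if n = 0 then (β : ℂ) / 2 else 0) + (n : ℂ) * a n := by
  rcases Nat.eq_zero_or_pos n with h | h
  · subst h; simp [yC]
  · have h1 : ((n : ℤ) : ℤ) ≠ 0 := by omega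
    have h2 : (0 : ℤ) < (n : ℤ) := by omega
    have h3 : n ≠ 0 := by omega
    simp [yC, h3, h2]

theorem yC_neg (β : ℝ) (a b : ℕ → ℂ) (n : ℕ) :
    yC β a b (-((n : ℤ) + 1)) = -(((n + 1 : ℕ) : ℂ) * ((-1) ^ (n + 1) * conj (b (n + 1)))) := by
  have h1 : (-((n : ℤ) + 1)) ≠ 0 := by omega
  have h2 : ¬ (0 : ℤ) < (-((n : ℤ) + 1)) := by omega
  have h3 : (-((n : ℤ) + 1)).natAbs = n + 1 := by omega
  unfold yC
  rw [if_neg h1, if_neg h2, h3]
  push_cast
  ring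

/-- `Σ n |x_n| ρ^n` converges for `ρ < 2`. -/
theorem summable_mul_pow {x : ℕ → ℂ} (hx : Summable fun n : ℕ => 2 ^ n * ‖x n‖) {ρ : ℝ}
    (h0 : 0 ≤ ρ) (h2 : ρ < 2) : Summable fun n : ℕ => (n : ℝ) * ‖x n‖ * ρ ^ n := by
  have hr : ‖(ρ / 2 : ℝ)‖ < 1 := by
    rw [Real.norm_eq_abs, abs_of_nonneg (by positivity)]; linarith
  have h3 := summable_pow_mul_geometric_of_norm_lt_one 1 hr
  have h4 := h3.tendsto_atTop_zero.bddAbove_range
  obtain ⟨C, hC⟩ := h4
  refine Summable.of_nonneg_of_le (fun n => by positivity) (fun n => ?_) (hx.mul_left C)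
  have h5 : (n : ℝ) ^ 1 * (ρ / 2) ^ n ≤ C := hC ⟨n, rfl⟩
  have h6 : (n : ℝ) * ‖x n‖ * ρ ^ n = ((n : ℝ) ^ 1 * (ρ / 2) ^ n) * (2 ^ n * ‖x n‖) := by
    rw [div_pow]; field_simp
  rw [h6]
  exact mul_le_mul_of_nonneg_right h5 (by positivity)

theorem yC_summable {β : ℝ} {a b : ℕ → ℂ} (ha : Summable fun n : ℕ => 2 ^ n * ‖a n‖)
    (hb : Summable fun n : ℕ => 2 ^ n * ‖b n‖) {w : ℂ} (h1 : 1 / 2 < ‖w‖) (h2 : ‖w‖ < 2) :
    Summable fun n : ℤ => ‖yC β a b n * w ^ n‖ := by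
  have hw : w ≠ 0 := by
    rintro rfl; rw [norm_zero] at h1; linarith
  have hw0 : 0 < ‖w‖ := norm_pos_iff.mpr hw
  apply Summable.of_nat_of_neg_add_one
  · have h3 := summable_mul_pow ha hw0.le h2
    have h4 : Summable (fun n : ℕ => if n = 0 then ‖(β : ℂ) / 2‖ else 0) :=
      summable_of_ne_finset_zero (s := {0}) (fun n hn => by
        simp only [Finset.mem_singleton] at hn; simp [hn])
    refine Summable.of_nonneg_of_le (fun n => norm_nonneg _) (fun n => ?_) (h4.add h3)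
    rw [yC_nat, zpow_natCast, norm_mul, norm_pow]
    by_cases hn : n = 0
    · subst hn; simp
    · simp [hn]
  · have hinv0 : 0 ≤ ‖w‖⁻¹ := by positivity
    have hinv2 : ‖w‖⁻¹ < 2 := by
      rw [inv_lt_comm₀ hw0 (by norm_num)]; linarith
    have h3 := (summable_nat_add_iff 1).mpr (summable_mul_pow hb hinv0 hinv2)
    refine Summable.of_nonneg_of_le (fun n => norm_nonneg _) (fun n => ?_) h3
    rw [yC_neg, norm_mul, norm_neg, norm_mul, norm_mul, norm_pow, norm_neg, norm_one, one_pow,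
      one_mul, Complex.norm_conj, norm_zpow, Complex.norm_natCast]
    have : ‖w‖ ^ (-((n : ℤ) + 1)) = ‖w‖⁻¹ ^ (n + 1) := by
      rw [zpow_neg, inv_pow]; norm_cast
    rw [this]

theorem yC_sum {t β : ℝ} {a b : ℕ → ℂ} {ψ ω : ℂ → ℂ} (ht : 0 < t) (ht8 : t < 1 / 8)
    (ha : Summable fun n : ℕ => 2 ^ n * ‖a n‖) (hb : Summable fun n : ℕ => 2 ^ n * ‖b n‖)
    (hloc : IsLocal t β a b ψ ω) {z : ℂ} (h1 : t / 2 < ‖z‖) (h2 : ‖z‖ < 2 * t) :
    ∑' n : ℤ, yC β a b n * (z / t) ^ n = z * ω z := by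
  have htc : (t : ℂ) ≠ 0 := by exact_mod_cast ht.ne'
  have hz : z ≠ 0 := by
    rintro rfl; rw [norm_zero] at h1; linarith
  have hwn : ‖z / (t : ℂ)‖ = ‖z‖ / t := by
    rw [norm_div, Complex.norm_real, Real.norm_eq_abs, abs_of_pos ht]
  have hw1 : 1 / 2 < ‖z / (t : ℂ)‖ := by rw [hwn, lt_div_iff₀ ht]; linarith
  have hw2 : ‖z / (t : ℂ)‖ < 2 := by rw [hwn, div_lt_iff₀ ht]; linarith
  have hwpos : 0 < ‖z / (t : ℂ)‖ := by linarith
  have hS := yC_summable (β := β) ha hb hw1 hw2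
  -- the two one-sided sums
  have hA : Summable fun n : ℕ => (n : ℂ) * a n * (z / t) ^ n := by
    apply Summable.of_norm
    have := summable_mul_pow ha hwpos.le hw2
    refine this.congr (fun n => ?_)
    rw [norm_mul, norm_mul, norm_pow, Complex.norm_natCast]
  have hinv : ‖(t : ℂ) / z‖ < 2 := by
    rw [norm_div, Complex.norm_real, Real.norm_eq_abs, abs_of_pos ht, div_lt_iff₀ (by linarith)]
    linarith
  have hB : Summable fun n : ℕ => (n : ℂ) * ((-1) ^ n * conj (b n)) * (t / z) ^ n := by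
    apply Summable.of_norm
    have := summable_mul_pow hb (norm_nonneg ((t : ℂ) / z)) hinv
    refine this.congr (fun n => ?_)
    rw [norm_mul, norm_mul, norm_mul, norm_pow, norm_pow, norm_neg, norm_one, one_pow, one_mul,
      Complex.norm_conj, Complex.norm_natCast]
  have hom := hloc.om z h1 (by linarith)
  have hAB : z * ω z - β / 2 = ∑' n : ℕ, (n : ℂ) * a n * (z / t) ^ n
      - ∑' n : ℕ, (n : ℂ) * ((-1) ^ n * conj (b n)) * (t / z) ^ n := by
    rw [← hom.tsum_eq, ← Summable.tsum_sub hA hB]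
    apply tsum_congr
    intro n
    ring
  have hP : HasSum (fun n : ℕ => yC β a b (n : ℤ) * (z / t) ^ (n : ℤ))
      ((β : ℂ) / 2 + ∑' n : ℕ, (n : ℂ) * a n * (z / t) ^ n) := by
    have e1 : HasSum (fun n : ℕ => if n = 0 then (β : ℂ) / 2 else 0) ((β : ℂ) / 2) := by
      have := hasSum_ite_eq (0 : ℕ) ((β : ℂ) / 2)
      exact this
    have e2 := e1.add hA.hasSum
    refine e2.congr_aux ?_
    intro n
    rw [yC_nat, zpow_natCast]
    by_cases hn : n = 0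
    · subst hn; simp
    · simp [hn]
  have hN : HasSum (fun n : ℕ => yC β a b (-((n : ℤ) + 1)) * (z / t) ^ (-((n : ℤ) + 1)))
      (-∑' n : ℕ, (n : ℂ) * ((-1) ^ n * conj (b n)) * (t / z) ^ n) := by
    have e1 : HasSum (fun n : ℕ => ((n + 1 : ℕ) : ℂ) * ((-1) ^ (n + 1) * conj (b (n + 1))) *
        (t / z) ^ (n + 1)) (∑' n : ℕ, (n : ℂ) * ((-1) ^ n * conj (b n)) * (t / z) ^ n) := by
      have := (hasSum_nat_add_iff (f := fun n : ℕ => (n : ℂ) * ((-1) ^ n * conj (b n)) *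
        ((t : ℂ) / z) ^ n) 1).mpr (by simpa using hB.hasSum)
      exact this
    refine e1.neg.congr_aux ?_
    intro n
    rw [yC_neg]
    have : (z / (t : ℂ)) ^ (-((n : ℤ) + 1)) = ((t : ℂ) / z) ^ (n + 1) := by
      rw [zpow_neg, ← inv_zpow, inv_div]; norm_cast
    rw [this]; ring
  have := HasSum.of_nat_of_neg_add_one (f := fun n : ℤ => yC β a b n * (z / (t : ℂ)) ^ n) hP hN
  rw [this.tsum_eq]
  linear_combination -hAB

end Hopf
end FB
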