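import Mathlib
import Pool.Agent.FB.Hopf.Ser

/-!
# HOPF, part 5: coefficients of the Hopf differential (MP_15d50e_gt)
-/

open Complex Set
open scoped ComplexConjugate Real

namespace FB
namespace Hopf

/-- The Hopf differential of `u` (up to the constant `c²`). -/
noncomputable def qF (ω : ℂ → ℂ) (z : ℂ) : ℂ :=
  -(ω z * ω (-z)) + ω (I * z) * ω (-(I * z))
    - conj (ω (conj z) * ω (-(conj z))) + conj (ω (I * conj z) * ω (-(I * conj z)))

/-- Coefficients of `-z² ω(z) ω(-z)`. -/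
noncomputable def sC (β : ℝ) (a b : ℕ → ℂ) (n : ℤ) : ℂ := conv (yC β a b) (cj (yC β a b)) n

/-- Coefficients of `z² q(z)`. -/
noncomputable def hR (β : ℝ) (a b : ℕ → ℂ) (n : ℤ) : ℝ := 2 * (sC β a b n * (1 + I ^ n)).re

theorem neg_one_pow_natAbs (n : ℤ) : ((-1 : ℂ)) ^ n.natAbs = (-1 : ℂ) ^ n := by
  rcases Int.natAbs_eq n with h | h
  · conv_rhs => rw [h]
    rw [zpow_natCast]
  · conv_rhs => rw [h]
    rw [zpow_neg, zpow_natCast]
    rcases neg_one_pow_eq_or ℂ n.natAbs with h' | h' <;> rw [h'] <;> norm_num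

theorem norm_neg_one_pow (n : ℕ) : ‖((-1 : ℂ)) ^ n‖ = 1 := by simp

/-- Standing assumptions of the module. -/
structure Hyp (κ : ℂ) (t β : ℝ) (a b : ℕ → ℂ) (ψ ω : ℂ → ℂ) : Prop where
  ht : 0 < t
  ht8 : t < 1 / 8
  ha : Summable fun n : ℕ => 2 ^ n * ‖a n‖
  hb : Summable fun n : ℕ => 2 ^ n * ‖b n‖
  bh : IsBlochHarm κ (t / 2) ψ ω
  loc : IsLocal t β a b ψ ω

theorem norm_div_t {t : ℝ} (ht : 0 < t) (z : ℂ) : ‖z / (t : ℂ)‖ = ‖z‖ / t := by
  rw [norm_div, Complex.norm_real, Real.norm_eq_abs, abs_of_pos ht]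

theorem sC_summable {κ : ℂ} {t β : ℝ} {a b : ℕ → ℂ} {ψ ω : ℂ → ℂ} (H : Hyp κ t β a b ψ ω)
    {w : ℂ} (h1 : 1 / 2 < ‖w‖) (h2 : ‖w‖ < 2) :
    (Summable fun n : ℤ => ‖sC β a b n * w ^ n‖) ∧
    ∑' n : ℤ, sC β a b n * w ^ n =
      (∑' n : ℤ, yC β a b n * w ^ n) * (∑' n : ℤ, yC β a b n * (-w) ^ n) := by
  have hw : w ≠ 0 := by rintro rfl; rw [norm_zero] at h1; linarith
  have hcj : ∀ n : ℤ, cj (yC β a b) n * w ^ n = yC β a b n * (-w) ^ n := by
    intro n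
    have : (-w) ^ n = (-1) ^ n * w ^ n := by rw [neg_eq_neg_one_mul, mul_zpow]
    rw [this]; unfold cj; rw [neg_one_pow_natAbs]; ring
  have hy := yC_summable (β := β) H.ha H.hb h1 h2
  have hy' : Summable fun n : ℤ => ‖cj (yC β a b) n * w ^ n‖ := by
    refine hy.congr (fun n => ?_)
    rw [norm_mul, norm_mul]; unfold cj; rw [norm_mul, norm_neg_one_pow, one_mul]
  have h := conv_spec (yC β a b) (cj (yC β a b)) w hw hy hy'
  refine ⟨h.1, ?_⟩
  have e := h.2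
  rw [tsum_congr hcj] at e
  exact e

/-- The annulus around the hole. -/
def Ann (t : ℝ) : Set ℂ := {z | t / 2 < ‖z‖ ∧ ‖z‖ < 2 * t}

theorem A_sum {κ : ℂ} {t β : ℝ} {a b : ℕ → ℂ} {ψ ω : ℂ → ℂ} (H : Hyp κ t β a b ψ ω)
    {z : ℂ} (hz : z ∈ Ann t) :
    (Summable fun n : ℤ => ‖sC β a b n * (z / t) ^ n‖) ∧
    ∑' n : ℤ, sC β a b n * (z / t) ^ n = -(z ^ 2 * (ω z * ω (-z))) := by
  have ht := H.ht
  have hw1 : 1 / 2 < ‖z / (t : ℂ)‖ := by rw [norm_div_t ht, lt_div_iff₀ ht]; linarith [hz.1]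
  have hw2 : ‖z / (t : ℂ)‖ < 2 := by rw [norm_div_t ht, div_lt_iff₀ ht]; linarith [hz.2]
  obtain ⟨h1, h2⟩ := sC_summable H hw1 hw2
  refine ⟨h1, ?_⟩
  rw [h2, yC_sum H.ht H.ht8 H.ha H.hb H.loc hz.1 hz.2]
  have e : -(z / (t : ℂ)) = (-z) / t := by ring
  rw [e, yC_sum H.ht H.ht8 H.ha H.hb H.loc (by rw [norm_neg]; exact hz.1)
    (by rw [norm_neg]; exact hz.2)]
  ring

theorem Ann_I {t : ℝ} {z : ℂ} (hz : z ∈ Ann t) : I * z ∈ Ann t := by
  unfold Ann at *; simpa using hz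

theorem Ann_conj {t : ℝ} {z : ℂ} (hz : z ∈ Ann t) : conj z ∈ Ann t := by
  unfold Ann at *; simpa using hz

theorem hR_sum {κ : ℂ} {t β : ℝ} {a b : ℕ → ℂ} {ψ ω : ℂ → ℂ} (H : Hyp κ t β a b ψ ω)
    {z : ℂ} (hz : z ∈ Ann t) :
    (Summable fun n : ℤ => ‖((hR β a b n : ℝ) : ℂ) * (z / t) ^ n‖) ∧
    ∑' n : ℤ, ((hR β a b n : ℝ) : ℂ) * (z / t) ^ n = z ^ 2 * qF ω z := by
  obtain ⟨s1, e1⟩ := A_sum H hz
  obtain ⟨s2, e2⟩ := A_sum H (Ann_I hz)
  obtain ⟨s3, e3⟩ := A_sum H (Ann_conj hz)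
  obtain ⟨s4, e4⟩ := A_sum H (Ann_I (Ann_conj hz))
  have c2 : ∀ n : ℤ, sC β a b n * (I * z / t) ^ n = sC β a b n * I ^ n * (z / t) ^ n := by
    intro n; rw [mul_div_assoc, mul_zpow]; ring
  have c3 : ∀ n : ℤ, conj (sC β a b n * (conj z / t) ^ n) = conj (sC β a b n) * (z / t) ^ n := by
    intro n
    rw [map_mul, map_zpow₀, map_div₀, Complex.conj_conj, Complex.conj_ofReal]
  have c4 : ∀ n : ℤ, conj (sC β a b n * (I * conj z / t) ^ n)
      = conj (sC β a b n * I ^ n) * (z / t) ^ n := by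
    intro n
    have : sC β a b n * (I * conj z / t) ^ n = sC β a b n * I ^ n * (conj z / t) ^ n := by
      rw [mul_div_assoc, mul_zpow]; ring
    rw [this, map_mul, map_zpow₀ _ (conj z / (t : ℂ)), map_div₀, Complex.conj_conj,
      Complex.conj_ofReal]
  have key : ∀ n : ℤ, ((hR β a b n : ℝ) : ℂ) * (z / t) ^ n =
      ((sC β a b n * (z / t) ^ n + sC β a b n * (I * z / t) ^ n) +
        conj (sC β a b n * (conj z / t) ^ n)) + conj (sC β a b n * (I * conj z / t) ^ n) := by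
    intro n
    rw [c2, c3, c4]
    have e : ((hR β a b n : ℝ) : ℂ)
        = sC β a b n * (1 + I ^ n) + conj (sC β a b n * (1 + I ^ n)) := by
      rw [Complex.add_conj]; unfold hR; push_cast; ring
    rw [e, map_mul, map_mul, map_add, map_one]
    ring
  have n3 : Summable fun n : ℤ => ‖conj (sC β a b n * (conj z / t) ^ n)‖ := by
    simpa only [Complex.norm_conj] using s3
  have n4 : Summable fun n : ℤ => ‖conj (sC β a b n * (I * conj z / t) ^ n)‖ := by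
    simpa only [Complex.norm_conj] using s4
  constructor
  · refine Summable.of_nonneg_of_le (fun n => norm_nonneg _) (fun n => ?_)
      (((s1.add s2).add n3).add n4)
    rw [key n]
    refine (norm_add_le _ _).trans ?_
    gcongr
    refine (norm_add_le _ _).trans ?_
    gcongr
    exact norm_add_le _ _
  · rw [tsum_congr key, Summable.tsum_add ((s1.of_norm.add s2.of_norm).add n3.of_norm) n4.of_norm,
      Summable.tsum_add (s1.of_norm.add s2.of_norm) n3.of_norm,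
      Summable.tsum_add s1.of_norm s2.of_norm, ← Complex.conj_tsum, ← Complex.conj_tsum,
      e1, e2, e3, e4]
    unfold qF
    simp only [map_neg, map_mul, map_pow, Complex.conj_conj, Complex.conj_I]
    ring_nf
    simp only [Complex.I_sq]
    ring

/-! ## vanishing coefficients -/

theorem sC_odd (β : ℝ) (a b : ℕ → ℂ) {n : ℤ} (hn : Odd n) : sC β a b n = 0 := by
  have h1 : sC β a b n = -sC β a b n := by
    have hA : sC β a b n = ∑' k : ℤ, yC β a b k * ((-1) ^ (n - k) * yC β a b (n - k)) := by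
      unfold sC conv cj
      apply tsum_congr; intro k; rw [neg_one_pow_natAbs]
    rw [hA]
    conv_lhs => rw [← (Equiv.subLeft n).tsum_eq]
    rw [← tsum_neg]
    apply tsum_congr
    intro k
    simp only [Equiv.subLeft_apply]
    have e : n - (n - k) = k := by ring
    rw [e]
    have hpar : ((-1 : ℂ)) ^ k = -((-1) ^ (n - k)) := by
      have h2 : ((-1 : ℂ)) ^ (n - k) = (-1) ^ n * ((-1) ^ k)⁻¹ := by
        rw [zpow_sub₀ (by norm_num), div_eq_mul_inv]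
      rw [h2, hn.neg_one_zpow]
      have h3 : (((-1 : ℂ)) ^ k)⁻¹ = (-1) ^ k := by
        rw [← inv_zpow]; norm_num
      rw [h3]; ring
    rw [hpar]; ring
  have h2 : (2 : ℂ) * sC β a b n = 0 := by linear_combination h1
  simpa using h2

theorem I_zpow_four_mul (k : ℤ) : I ^ (4 * k) = 1 := by
  rw [zpow_mul]
  have : I ^ (4 : ℤ) = 1 := by
    have := Complex.I_pow_four
    exact_mod_cast this
  rw [this, one_zpow]

theorem hR_zero_of_not_dvd (β : ℝ) (a b : ℕ → ℂ) {n : ℤ} (hn : ¬ (4 : ℤ) ∣ n) :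
    hR β a b n = 0 := by
  unfold hR
  rcases Int.even_or_odd n with h | h
  · obtain ⟨k, hk⟩ := h
    have : ∃ j : ℤ, n = 4 * j + 2 := by
      refine ⟨(n - 2) / 4, ?_⟩; omega
    obtain ⟨j, hj⟩ := this
    have e : I ^ n = -1 := by
      rw [hj, zpow_add₀ I_ne_zero, I_zpow_four_mul, one_mul]
      exact_mod_cast Complex.I_sq
    rw [e]; simp
  · rw [sC_odd β a b h]; simp

theorem summable_theta {a b : ℕ → ℂ} (ha : Summable fun n : ℕ => 2 ^ n * ‖a n‖)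
    (hb : Summable fun n : ℕ => 2 ^ n * ‖b n‖) :
    Summable fun n : ℕ => (n : ℂ) ^ 2 * (a n * conj (b n)) := by
  have h1 := summable_mul_pow ha (zero_le_one) (by norm_num : (1 : ℝ) < 2)
  have h2 := summable_mul_pow hb (zero_le_one) (by norm_num : (1 : ℝ) < 2)
  obtain ⟨C, hC⟩ := h2.tendsto_atTop_zero.bddAbove_range
  apply Summable.of_norm
  refine Summable.of_nonneg_of_le (fun n => norm_nonneg _) (fun n => ?_) (h1.mul_left C)
  have h5 : (n : ℝ) * ‖b n‖ * 1 ^ n ≤ C := hC ⟨n, rfl⟩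
  rw [norm_mul, norm_mul, norm_pow, Complex.norm_conj, Complex.norm_natCast]
  have h6 : (n : ℝ) ^ 2 * (‖a n‖ * ‖b n‖) = ((n : ℝ) * ‖b n‖ * 1 ^ n) * ((n : ℝ) * ‖a n‖ * 1 ^ n) := by
    rw [one_pow]; ring
  rw [h6]
  exact mul_le_mul_of_nonneg_right h5 (by positivity)

theorem sC_zero_eq {β : ℝ} {a b : ℕ → ℂ} (ha : Summable fun n : ℕ => 2 ^ n * ‖a n‖)
    (hb : Summable fun n : ℕ => 2 ^ n * ‖b n‖) :
    sC β a b 0 = (β : ℂ) ^ 2 / 4 - 2 * ∑' n : ℕ, (n : ℂ) ^ 2 * (a n * conj (b n)) := by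
  have hs := summable_theta ha hb
  have hP : HasSum (fun n : ℕ => (fun k : ℤ => yC β a b k * cj (yC β a b) (0 - k)) (n : ℤ))
      ((β : ℂ) ^ 2 / 4 - ∑' n : ℕ, (n : ℂ) ^ 2 * (a n * conj (b n))) := by
    have e1 : HasSum (fun n : ℕ => if n = 0 then (β : ℂ) ^ 2 / 4 else 0) ((β : ℂ) ^ 2 / 4) :=
      hasSum_ite_eq (0 : ℕ) ((β : ℂ) ^ 2 / 4)
    refine (e1.sub hs.hasSum).congr_aux ?_
    intro n
    rcases Nat.eq_zero_or_pos n with h | h
    · subst h; simp [cj, yC_zero]; ring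
    · obtain ⟨m, rfl⟩ : ∃ m, n = m + 1 := ⟨n - 1, by omega⟩
      have e2 : (0 : ℤ) - ((m + 1 : ℕ) : ℤ) = -((m : ℤ) + 1) := by push_cast; ring
      have e3 : (-((m : ℤ) + 1)).natAbs = m + 1 := by omega
      simp only [cj]
      rw [e2, yC_neg, e3, yC_nat, if_neg (by omega), if_neg (by omega)]
      have e4 : ((-1 : ℂ)) ^ (m + 1) * (-1) ^ (m + 1) = 1 := by
        rw [← mul_pow]; norm_num
      linear_combination (-(((m + 1 : ℕ) : ℂ) ^ 2 * (a (m + 1) * conj (b (m + 1))))) * e4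
  have hN : HasSum (fun n : ℕ => (fun k : ℤ => yC β a b k * cj (yC β a b) (0 - k)) (-((n : ℤ) + 1)))
      (-∑' n : ℕ, (n : ℂ) ^ 2 * (a n * conj (b n))) := by
    have e1 : HasSum (fun n : ℕ => ((n + 1 : ℕ) : ℂ) ^ 2 * (a (n + 1) * conj (b (n + 1))))
        (∑' n : ℕ, (n : ℂ) ^ 2 * (a n * conj (b n))) := by
      have := (hasSum_nat_add_iff (f := fun n : ℕ => (n : ℂ) ^ 2 * (a n * conj (b n))) 1).mpr
        (by simpa using hs.hasSum)
      exact this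
    refine e1.neg.congr_aux ?_
    intro m
    have e2 : (0 : ℤ) - (-((m : ℤ) + 1)) = ((m + 1 : ℕ) : ℤ) := by push_cast; ring
    have e3 : (((m + 1 : ℕ) : ℤ)).natAbs = m + 1 := by omega
    simp only [cj]
    rw [e2, yC_neg, e3, yC_nat, if_neg (by omega)]
    have e4 : ((-1 : ℂ)) ^ (m + 1) * (-1) ^ (m + 1) = 1 := by
      rw [← mul_pow]; norm_num
    linear_combination (-(((m + 1 : ℕ) : ℂ) ^ 2 * (a (m + 1) * conj (b (m + 1))))) * e4
  have h := HasSum.of_nat_of_neg_add_one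
    (f := fun k : ℤ => yC β a b k * cj (yC β a b) (0 - k)) hP hN
  have : sC β a b 0 = ∑' k : ℤ, yC β a b k * cj (yC β a b) (0 - k) := rfl
  rw [this, h.tsum_eq]; ring

theorem hR_zero {β : ℝ} {a b : ℕ → ℂ} (ha : Summable fun n : ℕ => 2 ^ n * ‖a n‖)
    (hb : Summable fun n : ℕ => 2 ^ n * ‖b n‖)
    (htheta : β ^ 2 = 8 * ∑' n : ℕ, (n : ℝ) ^ 2 * (a n * conj (b n)).re) : hR β a b 0 = 0 := by
  unfold hR
  rw [sC_zero_eq ha hb, zpow_zero]
  have hs := summable_theta ha hb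
  have hre : (∑' n : ℕ, (n : ℂ) ^ 2 * (a n * conj (b n))).re
      = ∑' n : ℕ, (n : ℝ) ^ 2 * (a n * conj (b n)).re := by
    rw [Complex.re_tsum hs]
    apply tsum_congr
    intro n
    have : ((n : ℂ) ^ 2) = (((n : ℝ) ^ 2 : ℝ) : ℂ) := by push_cast; ring
    rw [this, Complex.re_ofReal_mul]
  have e : (((β : ℂ) ^ 2 / 4 - 2 * ∑' n : ℕ, (n : ℂ) ^ 2 * (a n * conj (b n))) * (1 + 1)).re
      = β ^ 2 / 2 - 4 * (∑' n : ℕ, (n : ℂ) ^ 2 * (a n * conj (b n))).re := by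
    have h1 : ((β : ℂ) ^ 2 / 4 - 2 * ∑' n : ℕ, (n : ℂ) ^ 2 * (a n * conj (b n))) * (1 + 1)
        = (((β ^ 2 / 2 : ℝ)) : ℂ) - ((4 : ℝ) : ℂ) * ∑' n : ℕ, (n : ℂ) ^ 2 * (a n * conj (b n)) := by
      push_cast; ring
    rw [h1, Complex.sub_re, Complex.ofReal_re, Complex.re_ofReal_mul]
  rw [e, hre]
  linarith

end Hopf
end FB
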