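import Mathlib
import Pool.Agent.FB.Hopf.Geom

/-!
# HOPF, part 3: periodic lattice sums `Σ_p (z-p)^{-n}`, `n ≥ 4` (MP_15d50e_gt)
-/

open Complex Set Metric
open scoped ComplexConjugate Real

namespace FB
namespace Hopf

/-- one-dimensional weight -/
noncomputable def w1 (a : ℤ) : ℝ := 1 / (1 + (a : ℝ) ^ 2)

/-- two-dimensional weight -/
noncomputable def wt (p : ℤ × ℤ) : ℝ := w1 p.1 * w1 p.2

theorem w1_pos (a : ℤ) : 0 < w1 a := by unfold w1; positivity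

theorem wt_pos (p : ℤ × ℤ) : 0 < wt p := mul_pos (w1_pos _) (w1_pos _)

theorem w1_hasSum : Summable w1 ∧ ∑' a, w1 a ≤ 5 := by
  have hz : HasSum (fun n : ℕ => 1 / (n : ℝ) ^ 2) (π ^ 2 / 6) := hasSum_zeta_two
  -- nonnegative part
  have hA : Summable (fun n : ℕ => (if n = 0 then (1 : ℝ) else 0) + 1 / (n : ℝ) ^ 2) :=
    (summable_of_ne_finset_zero (s := {0}) (fun n hn => by
      simp only [Finset.mem_singleton] at hn; simp [hn])).add hz.summable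
  have hAle : ∀ n : ℕ, w1 (n : ℤ) ≤ (if n = 0 then (1 : ℝ) else 0) + 1 / (n : ℝ) ^ 2 := by
    intro n
    unfold w1
    rcases Nat.eq_zero_or_pos n with h | h
    · subst h; simp
    · have h0 : (0 : ℝ) < (n : ℝ) ^ 2 := by positivity
      have : (if n = 0 then (1 : ℝ) else 0) = 0 := by rw [if_neg (by omega)]
      rw [this, zero_add]
      push_cast
      exact one_div_le_one_div_of_le h0 (by linarith)
  have h1s : Summable (fun n : ℕ => w1 (n : ℤ)) :=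
    Summable.of_nonneg_of_le (fun n => (w1_pos _).le) hAle hA
  have h1t : ∑' n : ℕ, w1 (n : ℤ) ≤ 1 + π ^ 2 / 6 := by
    refine (h1s.tsum_le_tsum hAle hA).trans (le_of_eq ?_)
    rw [Summable.tsum_add (summable_of_ne_finset_zero (s := {0}) (fun n hn => by
      simp only [Finset.mem_singleton] at hn; simp [hn])) hz.summable, hz.tsum_eq, tsum_ite_eq]
  -- negative part
  have hB : Summable (fun n : ℕ => 1 / ((n + 1 : ℕ) : ℝ) ^ 2) :=
    (summable_nat_add_iff 1).mpr hz.summable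
  have hBt : ∑' n : ℕ, 1 / ((n + 1 : ℕ) : ℝ) ^ 2 = π ^ 2 / 6 := by
    have := hz.summable.sum_add_tsum_nat_add 1
    rw [hz.tsum_eq] at this
    simpa using this
  have hBle : ∀ n : ℕ, w1 (-((n : ℤ) + 1)) ≤ 1 / ((n + 1 : ℕ) : ℝ) ^ 2 := by
    intro n
    unfold w1
    have h0 : (0 : ℝ) < ((n + 1 : ℕ) : ℝ) ^ 2 := by positivity
    refine one_div_le_one_div_of_le h0 ?_
    push_cast
    nlinarith
  have h2s : Summable (fun n : ℕ => w1 (-((n : ℤ) + 1))) :=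
    Summable.of_nonneg_of_le (fun n => (w1_pos _).le) hBle hB
  have h2t : ∑' n : ℕ, w1 (-((n : ℤ) + 1)) ≤ π ^ 2 / 6 :=
    (h2s.tsum_le_tsum hBle hB).trans hBt.le
  have hs : HasSum w1 (∑' n : ℕ, w1 (n : ℤ) + ∑' n : ℕ, w1 (-((n : ℤ) + 1))) :=
    HasSum.of_nat_of_neg_add_one h1s.hasSum h2s.hasSum
  refine ⟨hs.summable, ?_⟩
  rw [hs.tsum_eq]
  have hpi : π ^ 2 ≤ 10 := by
    have := Real.pi_lt_d2
    have := Real.pi_pos
    nlinarith
  linarith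

theorem wt_summable : Summable wt := by
  have h := (w1_hasSum.1).mul_of_nonneg w1_hasSum.1 (fun a => (w1_pos a).le) (fun a => (w1_pos a).le)
  exact h

theorem wt_tsum_le : ∑' p, wt p ≤ 25 := by
  have h : ∑' p : ℤ × ℤ, wt p = (∑' a, w1 a) * (∑' a, w1 a) :=
    (w1_hasSum.1.tsum_mul_tsum w1_hasSum.1 wt_summable).symm
  rw [h]
  have h0 : 0 ≤ ∑' a, w1 a := tsum_nonneg fun a => (w1_pos a).le
  nlinarith [w1_hasSum.2]

/-- `|p|^{-4} ≤ (9/4) wt p` for `p ≠ 0`. -/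
theorem inv_norm_pow_four_le {p : ℤ × ℤ} (hp : p ≠ 0) : (‖lp p‖ ^ 4)⁻¹ ≤ 9 / 4 * wt p := by
  have h1 := one_le_norm_lp hp
  have hs : ‖lp p‖ ^ 2 = (p.1 : ℝ) ^ 2 + (p.2 : ℝ) ^ 2 := norm_lp_sq p
  set s := ‖lp p‖ ^ 2 with hsdef
  have hs1 : 1 ≤ s := by rw [hsdef]; nlinarith
  have h4 : ‖lp p‖ ^ 4 = s ^ 2 := by rw [hsdef]; ring
  rw [h4]
  unfold wt w1
  rw [div_mul_div_comm, one_mul, ← mul_div_assoc, mul_one, inv_eq_one_div,
    div_le_div_iff₀ (by positivity) (by positivity)]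
  have ha : 0 ≤ (p.1 : ℝ) ^ 2 := sq_nonneg _
  have hb : 0 ≤ (p.2 : ℝ) ^ 2 := sq_nonneg _
  set a := (p.1 : ℝ) ^ 2
  set b := (p.2 : ℝ) ^ 2
  have hab : a * b ≤ s ^ 2 / 4 := by rw [hs]; nlinarith [sq_nonneg (a - b)]
  have : (1 + a) * (1 + b) = 1 + s + a * b := by rw [hs]; ring
  rw [this]
  nlinarith

theorem wt_ge {p : ℤ × ℤ} (hp : ‖lp p‖ < 2) : 1 / 4 ≤ wt p := by
  have h1 : |(p.1 : ℝ)| < 2 := by
    have := Complex.abs_re_le_norm (lp p); rw [lp_re] at this; exact_mod_cast lt_of_le_of_lt this hp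
  have h2 : |(p.2 : ℝ)| < 2 := by
    have := Complex.abs_im_le_norm (lp p); rw [lp_im] at this; exact_mod_cast lt_of_le_of_lt this hp
  have h1' : (p.1 : ℝ) ^ 2 ≤ 1 := by
    have : |p.1| < 2 := by exact_mod_cast h1
    have : |p.1| ≤ 1 := by omega
    have h3 : p.1 ^ 2 ≤ 1 := by
      rw [← sq_abs]; nlinarith [abs_nonneg p.1]
    exact_mod_cast h3
  have h2' : (p.2 : ℝ) ^ 2 ≤ 1 := by
    have : |p.2| < 2 := by exact_mod_cast h2
    have : |p.2| ≤ 1 := by omega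
    have h3 : p.2 ^ 2 ≤ 1 := by
      rw [← sq_abs]; nlinarith [abs_nonneg p.2]
    exact_mod_cast h3
  have g1 : 1 / 2 ≤ w1 p.1 := by
    unfold w1; exact one_div_le_one_div_of_le (by positivity) (by linarith)
  have g2 : 1 / 2 ≤ w1 p.2 := by
    unfold w1; exact one_div_le_one_div_of_le (by positivity) (by linarith)
  unfold wt
  nlinarith

/-- The full periodic sum. -/
noncomputable def S0 (n : ℕ) (z : ℂ) : ℂ := ∑' p : ℤ × ℤ, ((z - lp p) ^ n)⁻¹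

/-- The sum without the term `p = 0`. -/
noncomputable def S1 (n : ℕ) (z : ℂ) : ℂ := ∑' p : ℤ × ℤ, if p = 0 then 0 else ((z - lp p) ^ n)⁻¹

/-- term bound near the origin -/
theorem term_bound1 {n : ℕ} (hn : 4 ≤ n) {z : ℂ} (hz : ‖z‖ ≤ 1 / 2) (p : ℤ × ℤ) :
    ‖(if p = 0 then (0 : ℂ) else ((z - lp p) ^ n)⁻¹)‖ ≤ 2 ^ n * (9 / 4) * wt p := by
  split_ifs with hp
  · rw [norm_zero]; have := (wt_pos p).le; positivity
  · have h1 := one_le_norm_lp hp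
    have h2 : ‖lp p‖ / 2 ≤ ‖z - lp p‖ := by
      have : ‖lp p‖ ≤ ‖z‖ + ‖z - lp p‖ := by
        have e : lp p = z - (z - lp p) := by ring
        calc ‖lp p‖ = ‖z - (z - lp p)‖ := by rw [← e]
          _ ≤ _ := norm_sub_le _ _
      linarith
    rw [norm_inv, norm_pow]
    have h3 : (‖z - lp p‖ ^ n)⁻¹ ≤ ((‖lp p‖ / 2) ^ n)⁻¹ := by
      apply inv_anti₀ (by positivity)
      exact pow_le_pow_left₀ (by positivity) h2 n
    have h4 : ((‖lp p‖ / 2) ^ n)⁻¹ = 2 ^ n * (‖lp p‖ ^ n)⁻¹ := by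
      rw [div_pow, inv_div, div_eq_mul_inv]
    have h5 : (‖lp p‖ ^ n)⁻¹ ≤ (‖lp p‖ ^ 4)⁻¹ := by
      apply inv_anti₀ (by positivity)
      exact pow_le_pow_right₀ h1 hn
    calc (‖z - lp p‖ ^ n)⁻¹ ≤ 2 ^ n * (‖lp p‖ ^ n)⁻¹ := h3.trans h4.le
      _ ≤ 2 ^ n * (9 / 4 * wt p) := by
          apply mul_le_mul_of_nonneg_left (h5.trans (inv_norm_pow_four_le hp)) (by positivity)
      _ = _ := by ring

/-- term bound on `US s` -/
theorem term_bound0 {n : ℕ} (hn : 4 ≤ n) {s : ℝ} (hs : 0 < s) (hs1 : s ≤ 1) {z : ℂ}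
    (hz : ‖z‖ ≤ 1) (hzU : z ∈ US s) (p : ℤ × ℤ) :
    ‖((z - lp p) ^ n)⁻¹‖ ≤ 36 * (s ^ n)⁻¹ * wt p := by
  have hwp := wt_pos p
  have hsn : 1 ≤ (s ^ n)⁻¹ := by
    rw [one_le_inv₀ (by positivity)]
    exact pow_le_one₀ hs.le hs1
  rw [norm_inv, norm_pow]
  by_cases hp : ‖lp p‖ < 2
  · have h1 := wt_ge hp
    have h2 : (‖z - lp p‖ ^ n)⁻¹ ≤ (s ^ n)⁻¹ := by
      apply inv_anti₀ (by positivity)
      exact pow_le_pow_left₀ hs.le (hzU p).le n
    nlinarith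
  · push Not at hp
    have hp0 : p ≠ 0 := by
      rintro rfl
      simp at hp
      linarith
    have h2 : ‖lp p‖ / 2 ≤ ‖z - lp p‖ := by
      have : ‖lp p‖ ≤ ‖z‖ + ‖z - lp p‖ := by
        have e : lp p = z - (z - lp p) := by ring
        calc ‖lp p‖ = ‖z - (z - lp p)‖ := by rw [← e]
          _ ≤ _ := norm_sub_le _ _
      linarith
    have h3 : 1 ≤ ‖z - lp p‖ := by linarith
    have h4 : (‖z - lp p‖ ^ n)⁻¹ ≤ (‖z - lp p‖ ^ 4)⁻¹ := by
      apply inv_anti₀ (by positivity)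
      exact pow_le_pow_right₀ h3 hn
    have h5 : (‖z - lp p‖ ^ 4)⁻¹ ≤ ((‖lp p‖ / 2) ^ 4)⁻¹ := by
      apply inv_anti₀ (by positivity)
      exact pow_le_pow_left₀ (by positivity) h2 4
    have h6 : ((‖lp p‖ / 2) ^ 4)⁻¹ = 16 * (‖lp p‖ ^ 4)⁻¹ := by
      rw [div_pow, inv_div, div_eq_mul_inv]; norm_num
    have h7 := inv_norm_pow_four_le hp0
    have h8 : (‖z - lp p‖ ^ n)⁻¹ ≤ 36 * wt p := by
      calc (‖z - lp p‖ ^ n)⁻¹ ≤ 16 * (‖lp p‖ ^ 4)⁻¹ := (h4.trans h5).trans h6.le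
        _ ≤ 16 * (9 / 4 * wt p) := by linarith
        _ = 36 * wt p := by ring
    nlinarith

theorem summable1 {n : ℕ} (hn : 4 ≤ n) {z : ℂ} (hz : ‖z‖ ≤ 1 / 2) :
    Summable fun p : ℤ × ℤ => (if p = 0 then (0 : ℂ) else ((z - lp p) ^ n)⁻¹) :=
  Summable.of_norm_bounded (wt_summable.mul_left (2 ^ n * (9 / 4))) (term_bound1 hn hz)

theorem norm_S1_le {n : ℕ} (hn : 4 ≤ n) {z : ℂ} (hz : ‖z‖ ≤ 1 / 2) : ‖S1 n z‖ ≤ 60 * 2 ^ n := by
  have h1 : ‖S1 n z‖ ≤ ∑' p, 2 ^ n * (9 / 4) * wt p :=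
    tsum_of_norm_bounded ((wt_summable.mul_left (2 ^ n * (9 / 4))).hasSum) (term_bound1 hn hz)
  rw [tsum_mul_left] at h1
  have h2 := wt_tsum_le
  have h3 : (0 : ℝ) < 2 ^ n := by positivity
  nlinarith

theorem norm_S0_le_aux {n : ℕ} (hn : 4 ≤ n) {s : ℝ} (hs : 0 < s) (hs1 : s ≤ 1) {z : ℂ}
    (hz : ‖z‖ ≤ 1) (hzU : z ∈ US s) : ‖S0 n z‖ ≤ 900 * (s ^ n)⁻¹ := by
  have h1 : ‖S0 n z‖ ≤ ∑' p, 36 * (s ^ n)⁻¹ * wt p :=
    tsum_of_norm_bounded ((wt_summable.mul_left (36 * (s ^ n)⁻¹)).hasSum)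
      (term_bound0 hn hs hs1 hz hzU)
  rw [tsum_mul_left] at h1
  have h2 := wt_tsum_le
  have h3 : (0 : ℝ) < (s ^ n)⁻¹ := by positivity
  nlinarith

theorem S0_add (n : ℕ) (z : ℂ) (q : ℤ × ℤ) : S0 n (z + lp q) = S0 n z := by
  unfold S0
  rw [← (Equiv.addRight q).tsum_eq (fun p : ℤ × ℤ => ((z + lp q - lp p) ^ n)⁻¹)]
  apply tsum_congr
  intro p
  simp only [Equiv.coe_addRight, lp_add]
  congr 2
  ring

theorem S0_rot {n : ℕ} (hn : I ^ n = -1) (z : ℂ) : S0 n (I * z) = -S0 n z := by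
  unfold S0
  rw [← rotp.tsum_eq (fun p : ℤ × ℤ => ((I * z - lp p) ^ n)⁻¹), ← tsum_neg]
  apply tsum_congr
  intro p
  rw [← I_mul_lp, ← mul_sub, mul_pow, hn]
  rw [neg_one_mul, inv_neg]

theorem norm_S0_le {n : ℕ} (hn : 4 ≤ n) {s : ℝ} (hs : 0 < s) (hs1 : s ≤ 1) {z : ℂ}
    (hzU : z ∈ US s) : ‖S0 n z‖ ≤ 900 * (s ^ n)⁻¹ := by
  obtain ⟨q, hq⟩ := exists_near z
  have h1 : S0 n z = S0 n (z - lp q) := by
    have := S0_add n (z - lp q) q
    rw [sub_add_cancel] at this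
    exact this
  rw [h1]
  exact norm_S0_le_aux hn hs hs1 (by linarith) (US_sub hzU q)

theorem S0_diff_aux {n : ℕ} (hn : 4 ≤ n) {s : ℝ} (hs : 0 < s) (hs1 : s ≤ 1) :
    DifferentiableOn ℂ (S0 n) (ball 0 1 ∩ US s) := by
  unfold S0
  apply differentiableOn_tsum_of_summable_norm (wt_summable.mul_left (36 * (s ^ n)⁻¹))
  · intro p
    apply DifferentiableOn.inv
    · fun_prop
    · intro x hx
      apply pow_ne_zero
      have := hx.2 p
      intro h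
      rw [h, norm_zero] at this
      linarith
  · exact isOpen_ball.inter (isOpen_US s)
  · intro p w hw
    exact term_bound0 hn hs hs1 (by simpa using (mem_ball_zero_iff.mp hw.1).le) hw.2 p

theorem S0_differentiableAt {n : ℕ} (hn : 4 ≤ n) {s : ℝ} (hs : 0 < s) (hs1 : s ≤ 1) {z : ℂ}
    (hzU : z ∈ US s) : DifferentiableAt ℂ (S0 n) z := by
  obtain ⟨q, hq⟩ := exists_near z
  have h1 : S0 n = fun w => S0 n (w - lp q) := by
    funext w
    have := S0_add n (w - lp q) q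
    rw [sub_add_cancel] at this
    exact this
  rw [h1]
  have h2 : DifferentiableAt ℂ (S0 n) (z - lp q) := by
    apply (S0_diff_aux hn hs hs1).differentiableAt
    apply (isOpen_ball.inter (isOpen_US s)).mem_nhds
    refine ⟨?_, US_sub hzU q⟩
    rw [mem_ball_zero_iff]; linarith
  exact h2.comp z (by fun_prop : DifferentiableAt ℂ (fun w => w - lp q) z)

theorem S1_differentiableOn {n : ℕ} (hn : 4 ≤ n) : DifferentiableOn ℂ (S1 n) (ball 0 (1 / 2)) := by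
  unfold S1
  apply differentiableOn_tsum_of_summable_norm (wt_summable.mul_left (2 ^ n * (9 / 4)))
  · intro p
    by_cases hp : p = 0
    · simp only [hp, if_true]; fun_prop
    · simp only [hp, if_false]
      apply DifferentiableOn.inv
      · fun_prop
      · intro x hx
        apply pow_ne_zero
        intro h
        have h1 := one_le_norm_lp hp
        have h2 : x = lp p := sub_eq_zero.mp h
        rw [mem_ball_zero_iff, h2] at hx
        linarith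
  · exact isOpen_ball
  · intro p w hw
    exact term_bound1 hn (mem_ball_zero_iff.mp hw).le p

theorem S0_eq {n : ℕ} (hn : 4 ≤ n) {z : ℂ} (hz : ‖z‖ ≤ 1 / 2) : S0 n z = (z ^ n)⁻¹ + S1 n z := by
  unfold S0 S1
  have h1 := summable1 hn hz
  have h2 : (fun p : ℤ × ℤ => ((z - lp p) ^ n)⁻¹) = fun p => (if p = 0 then (z ^ n)⁻¹ else 0) +
      (if p = 0 then (0 : ℂ) else ((z - lp p) ^ n)⁻¹) := by
    funext p
    by_cases hp : p = 0
    · simp [hp]
    · simp [hp]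
  rw [h2, Summable.tsum_add _ h1, tsum_ite_eq]
  exact summable_of_ne_finset_zero (s := {0}) (fun p hp => by
    simp only [Finset.mem_singleton] at hp; simp [hp])

end Hopf
end FB
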