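import Pool.Agent.FB.Iface2
import Pool.Agent.FB.HopfC.Exp
import Pool.Agent.FB.HopfP.Fin
import Pool.Agent.FB.HopfR.Real

/-! MP_15d50e_gt, module HOPF: assembly of TheoremHOPF. -/

set_option autoImplicit false

open Complex Set
open scoped ComplexConjugate Real

namespace FB

theorem hH_re (β : ℝ) (a b : ℕ → ℂ) (n : ℤ) : conj (hH β a b n) = hH β a b n := by
  unfold hH
  split_ifs
  · exact Complex.conj_ofReal _
  · exact map_zero _

theorem hopf_symm {t β : ℝ} {a b : ℕ → ℂ} {q : ℂ → ℂ} (ht : 0 < t) (ht8 : t < 1 / 8)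
    (hexp : ∀ z : ℂ, t / 2 < ‖z‖ → ‖z‖ < 7 / 8 →
      HasSum (fun n : ℤ => hH β a b n * (z / t) ^ n) (z ^ 2 * q z))
    (hreal : ∀ z : ℂ, ‖z‖ = t → (z ^ 2 * q z).im = 0) (n : ℤ) :
    hH β a b (-n) = hH β a b n := by
  have htc : (t : ℂ) ≠ 0 := by exact_mod_cast ht.ne'
  have hz : ∀ θ : ℝ, ‖(t : ℂ) * cexp (θ * I)‖ = t := fun θ => by
    rw [norm_mul, norm_exp_ofReal_mul_I, mul_one, Complex.norm_real, Real.norm_of_nonneg ht.le]
  have hpow : ∀ (θ : ℝ) (m : ℤ), ((t : ℂ) * cexp (θ * I) / t) ^ m = cexp (m * θ * I) := by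
    intro θ m
    rw [mul_div_cancel_left₀ _ htc, ← Complex.exp_int_mul]
    congr 1
    ring
  have hs : ∀ θ : ℝ, HasSum (fun m : ℤ => hH β a b m * cexp (m * θ * I))
      (((t : ℂ) * cexp (θ * I)) ^ 2 * q (t * cexp (θ * I))) := by
    intro θ
    have h1 := hexp (t * cexp (θ * I)) (by rw [hz]; linarith) (by rw [hz]; linarith)
    exact hopf_congr h1 (fun m => by rw [hpow]) rfl
  have hsum : Summable fun m : ℤ => ‖hH β a b m‖ := by
    have h1 := (hs 0).summable.norm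
    refine h1.congr fun m => ?_
    simp
  have hsum' : Summable fun m : ℤ => ‖hH β a b (-m)‖ := (Equiv.neg ℤ).summable_iff.2 hsum
  refine coeff_unique (ι := ℤ) (e := fun m => m) (c := fun m => hH β a b (-m))
    (c' := fun m => hH β a b m) hsum' hsum (fun _ _ h => h) (fun θ => ?_) n
  have h1 := (hs θ)
  have h2 := hreal (t * cexp (θ * I)) (hz θ)
  have h3 : conj (((t : ℂ) * cexp (θ * I)) ^ 2 * q (t * cexp (θ * I))) =
      ((t : ℂ) * cexp (θ * I)) ^ 2 * q (t * cexp (θ * I)) := Complex.conj_eq_iff_im.2 h2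
  have h4 : HasSum (fun m : ℤ => conj (hH β a b m * cexp (m * θ * I)))
      (conj (((t : ℂ) * cexp (θ * I)) ^ 2 * q (t * cexp (θ * I)))) := by
    exact (Complex.conjCLE : ℂ →L[ℝ] ℂ).hasSum h1
  rw [h3] at h4
  have h5 : HasSum (fun m : ℤ => conj (hH β a b (-m) * cexp ((-m : ℤ) * θ * I)))
      (((t : ℂ) * cexp (θ * I)) ^ 2 * q (t * cexp (θ * I))) := by
    exact (Equiv.neg ℤ).hasSum_iff.2 h4
  have h6 : ∀ m : ℤ, conj (hH β a b (-m) * cexp ((-m : ℤ) * θ * I)) =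
      hH β a b (-m) * cexp (m * θ * I) := by
    intro m
    rw [map_mul, hH_re, ← Complex.exp_conj]
    congr 2
    simp only [map_mul, Complex.conj_ofReal, Complex.conj_I, Int.cast_neg, map_neg]
    have : conj ((m : ℂ)) = m := by exact_mod_cast Complex.conj_ofReal (m : ℝ)
    rw [this]; ring
  rw [h1.tsum_eq, ← h5.tsum_eq]
  exact tsum_congr fun m => (h6 m).symm

theorem theoremHOPF : TheoremHOPF := by
  intro κ t β c a b ψ ω ρ ht ht8 _ _ ha hb hbh hloc hc hbd htheta z hz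
  have hreal : ∀ z : ℂ, ‖z‖ = t → (z ^ 2 * qH ω z).im = 0 :=
    fun z hz => qH_real hbh ht ht8 hc hbd hz
  exact hopf_zero ht ht8 (q := qH ω) (h := hH β a b) (qH_per hbh) (fun z _ => qH_rot ω z)
    (hH_exp ht hb hloc) (hH_four β a b) (hH_zero ha hb htheta)
    (fun n => by rw [hopf_symm ht ht8 (hH_exp ht hb hloc) hreal n]) z hz

end FB
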